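import Pool.Agent.helper15.FH.GI

set_option autoImplicit false

/-! Module DD of project FH (MP_8af768_co): degree bounds with a defect. -/

namespace Pool.Agent.helper15.FH

open Finset Pool.Agent.helper32.Cant

noncomputable section

variable (c : Cfg)

/-- the reference weights at the position `x` -/
def DD_w (x x' : c.X) : ℝ := (1 + c.ρ)⁻¹ * (ind (x = x') + c.ρ / c.g * ind (c.Γ.Adj x x'))

theorem DD_w_same (x : c.X) : DD_w c x x = (1 + c.ρ)⁻¹ := by
  unfold DD_w
  rw [ind_of rfl, ind_of_not (c.Γ.irrefl)]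
  ring

theorem DD_w_adj {x x' : c.X} (h : c.Γ.Adj x x') : DD_w c x x' = (1 + c.ρ)⁻¹ * (c.ρ / c.g) := by
  unfold DD_w
  rw [ind_of h, ind_of_not h.ne]
  ring

theorem DD_s_pos : 0 < (1 + c.ρ)⁻¹ := inv_pos.mpr (by have := ρ_pos c; linarith)

theorem DD_w_nonneg (x x' : c.X) : 0 ≤ DD_w c x x' :=
  mul_nonneg (DD_s_pos c).le (add_nonneg (ind_nonneg _)
    (mul_nonneg (div_nonneg (ρ_pos c).le (g_pos c).le) (ind_nonneg _)))

theorem DD_w_sum (x : c.X) : ∑ x', DD_w c x x' = 1 := by
  unfold DD_w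
  rw [← Finset.mul_sum, Finset.sum_add_distrib, ← Finset.mul_sum, c.good.reg]
  have e : ∑ x', ind (x = x') = 1 := by
    rw [Finset.sum_eq_single x]
    · exact ind_of rfl
    · intro b _ hb
      exact ind_of_not (fun h => hb h.symm)
    · intro h
      exact absurd (Finset.mem_univ _) h
  rw [e, div_mul_cancel₀ _ (g_pos c).ne']
  exact inv_mul_cancel₀ (by have := ρ_pos c; linarith)

theorem DD_one {α : Type} (X0 : O c → α) (h0 : Ref (x1 c) X0) (k : Fin c.N) :
    Hc (mu c) (fun z => x2 c z k) (fun z => (X0 z, pre (x2 c) k z)) ≤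
      Real.log (1 + c.ρ) + (Real.log c.g - Real.log c.ρ) * ex (mu c) (fun z => ind ((z.1 k).1 ≠ (z.2 k).1))
      - 1 / 4 * ex (mu c) (fun z =>
        (ce (mu c) (fun z => (X0 z, pre (x2 c) k z)) (fun z => ind (ag c k z)) z
          - 1 / (1 + c.ρ)) ^ 2) := by
  have h := gibbs_defect (mu_prob c) (fun z => x2 c z k) (fun z => (X0 z, pre (x2 c) k z))
    (fun z x' => DD_w c (x1 c z k) x') (fun z x' => DD_w_nonneg c _ _)
    (fun z z' hz => by
      have h1 : X0 z = X0 z' := congrArg Prod.fst hz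
      have h2 : x1 c z = x1 c z' := h0 _ _ h1
      funext x'
      show DD_w c (x1 c z k) x' = DD_w c (x1 c z' k) x'
      rw [h2])
    (fun z => (DD_w_sum c _).le)
    (fun z hz => by
      show 0 < DD_w c (x1 c z k) (x2 c z k)
      rcases mu_pos_x c hz k with h | h
      · rw [← h, DD_w_same]
        exact DD_s_pos c
      · rw [DD_w_adj c h]
        exact mul_pos (DD_s_pos c) (div_pos (ρ_pos c) (g_pos c)))
  refine h.trans ?_
  have e1 : ex (mu c) (fun z => -Real.log (DD_w c (x1 c z k) (x2 c z k))) =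
      Real.log (1 + c.ρ) + (Real.log c.g - Real.log c.ρ) * ex (mu c) (fun z => ind ((z.1 k).1 ≠ (z.2 k).1)) := by
    rw [← ex_smul, ← ex_const (mu_prob c) (Real.log (1 + c.ρ)), ← ex_add]
    apply ex_congr (mu_nonneg c)
    intro z hz
    have hρ := ρ_pos c
    have hg := g_pos c
    rcases mu_pos_x c hz k with h | h
    · have hn : ¬ ((z.1 k).1 ≠ (z.2 k).1) := fun hh => hh h
      rw [← h, DD_w_same, ind_of_not hn, Real.log_inv]
      ring
    · have hn : (z.1 k).1 ≠ (z.2 k).1 := h.ne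
      rw [DD_w_adj c h, ind_of hn, Real.log_mul (DD_s_pos c).ne' (div_pos hρ hg).ne', Real.log_inv,
        Real.log_div hρ.ne' hg.ne']
      ring
  have e2 : ex (mu c) (fun z =>
        (ce (mu c) (fun z => (X0 z, pre (x2 c) k z)) (fun z => ind (ag c k z)) z
          - 1 / (1 + c.ρ)) ^ 2) ≤
      ex (mu c) (fun z => (∑ x', |ce (mu c) (fun z => (X0 z, pre (x2 c) k z)) (fun y => ind (x2 c y k = x')) z
        - DD_w c (x1 c z k) x'|) ^ 2) := by
    apply ex_mono (mu_nonneg c)
    intro z _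
    have h1 : |ce (mu c) (fun z => (X0 z, pre (x2 c) k z)) (fun z => ind (ag c k z)) z - 1 / (1 + c.ρ)| ≤
        ∑ x', |ce (mu c) (fun z => (X0 z, pre (x2 c) k z)) (fun y => ind (x2 c y k = x')) z
        - DD_w c (x1 c z k) x'| := by
      have h2 : ce (mu c) (fun z => (X0 z, pre (x2 c) k z)) (fun z => ind (ag c k z)) z =
          ce (mu c) (fun z => (X0 z, pre (x2 c) k z)) (fun y => ind (x2 c y k = x1 c z k)) z := by
        apply ce_congr_fun (mu_nonneg c)
        intro y _ hy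
        have h3 : X0 y = X0 z := congrArg Prod.fst hy
        have h4 : x1 c y = x1 c z := h0 _ _ h3
        apply ind_congr
        unfold ag
        rw [h4]
        exact eq_comm
      rw [h2, one_div, ← DD_w_same c (x1 c z k)]
      exact Finset.single_le_sum (f := fun x' => |ce (mu c) (fun z => (X0 z, pre (x2 c) k z)) (fun y => ind (x2 c y k = x')) z
        - DD_w c (x1 c z k) x'|) (fun x' _ => abs_nonneg _) (Finset.mem_univ (x1 c z k))
    rw [← sq_abs]
    exact pow_le_pow_left₀ (abs_nonneg _) h1 2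
  have e3 : ex (mu c) (fun z => -Real.log ((fun z x' => DD_w c (x1 c z k) x') z ((fun z => x2 c z k) z))) =
    ex (mu c) (fun z => -Real.log (DD_w c (x1 c z k) (x2 c z k))) := rfl
  rw [e3, e1]
  linarith

theorem DDgen {α : Type} (X0 : O c → α) (h0 : Ref (x1 c) X0) :
    Hc (mu c) (x2 c) X0 ≤ c.N * Real.log (1 + c.ρ)
      + (Real.log c.g - Real.log c.ρ) * ex (mu c) (kd c)
      - 1 / 4 * ∑ k : Fin c.N, ex (mu c) (fun z =>
        (ce (mu c) (fun z => (X0 z, pre (x2 c) k z)) (fun z => ind (ag c k z)) z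
          - 1 / (1 + c.ρ)) ^ 2) := by
  rw [Hc_pi (mu_prob c) (x2 c) X0]
  refine (Finset.sum_le_sum fun k _ => DD_one c X0 h0 k).trans (le_of_eq ?_)
  rw [Finset.sum_sub_distrib, Finset.sum_add_distrib, Finset.sum_const, Finset.card_univ,
    Fintype.card_fin, nsmul_eq_mul, ← Finset.mul_sum, ← Finset.mul_sum]
  have e : ∑ k : Fin c.N, ex (mu c) (fun z => ind ((z.1 k).1 ≠ (z.2 k).1)) = ex (mu c) (kd c) := by
    rw [← ex_sum (mu c) Finset.univ (fun k z => ind ((z.1 k).1 ≠ (z.2 k).1))]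
    rfl
  rw [e]

end

end Pool.Agent.helper15.FH
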