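import Pool.Agent.helper15.FH.GI

set_option autoImplicit false

/-! Module TT of project FH (MP_8af768_co): clique bound. -/

namespace Pool.Agent.helper15.FH

open Finset Pool.Agent.helper32.Cant

noncomputable section

variable (c : Cfg)

/-- number of neighbours of a target vertex -/
theorem TT_nbr (p : c.X × Fin 5) : ∑ p' : c.X × Fin 5, ind (c.Γ.Adj p.1 p'.1) = 5 * (c.g : ℝ) := by
  rw [Fintype.sum_prod_type]
  simp only [Finset.sum_const, Finset.card_univ, Fintype.card_fin, nsmul_eq_mul]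
  rw [← Finset.mul_sum, c.good.reg]
  norm_num

theorem TT_ind_mul {p : Prop} {a : ℝ} (h : p → 0 ≤ a) : 0 ≤ ind p * a := by
  by_cases hp : p
  · rw [ind_of hp, one_mul]; exact h hp
  · rw [ind_of_not hp, zero_mul]

/-- weight of a place of the source -/
def TT_a (p q : c.X × Y) : ℝ := 1 + (c.ρ - 1) * ind (p.1 ≠ q.1)

theorem TT_a_same {p q : c.X × Y} (h : p.1 = q.1) : TT_a c p q = 1 := by
  unfold TT_a
  rw [ind_of_not (by simpa using h)]; ring

theorem TT_a_diff {p q : c.X × Y} (h : p.1 ≠ q.1) : TT_a c p q = c.ρ := by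
  unfold TT_a
  rw [ind_of h]; ring

theorem TT_a_pos (p q : c.X × Y) : 0 < TT_a c p q := by
  by_cases h : p.1 = q.1
  · rw [TT_a_same c h]; exact one_pos
  · rw [TT_a_diff c h]; exact ρ_pos c

theorem TT_log_a (p q : c.X × Y) : Real.log (TT_a c p q) = Real.log c.ρ * ind (p.1 ≠ q.1) := by
  by_cases h : p.1 = q.1
  · rw [TT_a_same c h, ind_of_not (by simpa using h)]; simp
  · rw [TT_a_diff c h, ind_of h, mul_one]

/-- weight of a place of the target -/
def TT_b (p q : c.X × Fin 5) : ℝ := 1 + (1 / (5 * c.g) - 1) * ind (p ≠ q)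

theorem TT_b_same {p q : c.X × Fin 5} (h : p = q) : TT_b c p q = 1 := by
  unfold TT_b
  rw [ind_of_not (by simpa using h)]; ring

theorem TT_b_diff {p q : c.X × Fin 5} (h : p ≠ q) : TT_b c p q = 1 / (5 * c.g) := by
  unfold TT_b
  rw [ind_of h]; ring

theorem TT_5g : (0 : ℝ) < 5 * c.g := mul_pos (by norm_num) (g_pos c)

theorem TT_b_pos (p q : c.X × Fin 5) : 0 < TT_b c p q := by
  by_cases h : p = q
  · rw [TT_b_same c h]; exact one_pos
  · rw [TT_b_diff c h]; exact one_div_pos.mpr (TT_5g c)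

theorem TT_log_b (p q : c.X × Fin 5) : Real.log (TT_b c p q) = - Real.log (5 * c.g) * ind (p ≠ q) := by
  by_cases h : p = q
  · rw [TT_b_same c h, ind_of_not (by simpa using h)]; simp
  · rw [TT_b_diff c h, ind_of h, mul_one, one_div, Real.log_inv]

open Classical in
/-- the target weight as an average over the neighbours -/
theorem TT_b_avg {p q : c.X × Fin 5} (h : cH c.Γ p q) :
    TT_b c p q = ∑ u ∈ univ.filter (fun p' : c.X × Fin 5 => c.Γ.Adj p.1 p'.1),
      1 / (5 * (c.g : ℝ)) * ind (q = p ∨ q = u) := by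
  rw [Finset.sum_filter]
  have e : ∀ u : c.X × Fin 5, (if c.Γ.Adj p.1 u.1 then 1 / (5 * (c.g : ℝ)) * ind (q = p ∨ q = u) else 0) =
      1 / (5 * (c.g : ℝ)) * (ind (c.Γ.Adj p.1 u.1) * ind (q = p ∨ q = u)) := by
    intro u
    by_cases h1 : c.Γ.Adj p.1 u.1
    · rw [if_pos h1, ind_of h1, one_mul]
    · rw [if_neg h1, ind_of_not h1]; ring
  simp only [e]
  rw [← Finset.mul_sum]
  by_cases hpq : p = q
  · rw [TT_b_same c hpq]
    have e2 : ∀ u : c.X × Fin 5, ind (c.Γ.Adj p.1 u.1) * ind (q = p ∨ q = u) = ind (c.Γ.Adj p.1 u.1) := by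
      intro u
      rw [ind_of (Or.inl hpq.symm : q = p ∨ q = u), mul_one]
    simp only [e2]
    rw [TT_nbr, one_div, inv_mul_cancel₀ (TT_5g c).ne']
  · rw [TT_b_diff c hpq]
    have hadj : c.Γ.Adj p.1 q.1 := h.resolve_right hpq
    have e2 : ∀ u : c.X × Fin 5, ind (c.Γ.Adj p.1 u.1) * ind (q = p ∨ q = u) = if u = q then 1 else 0 := by
      intro u
      by_cases hu : u = q
      · rw [if_pos hu, hu, ind_of hadj, ind_of (Or.inr rfl), one_mul]
      · rw [if_neg hu, ind_of_not (p := (q = p ∨ q = u)) (by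
          rintro (h1 | h1)
          · exact hpq h1.symm
          · exact hu h1.symm), mul_zero]
    simp only [e2]
    simp

/-- weights of a clique of the source at one place -/
theorem TT_place (p0 : c.X × Y) (T : Finset (c.X × Y)) (h0 : p0 ∈ T)
    (hT : ∀ p ∈ T, ∀ q ∈ T, cG c.Γ p q) : ∑ p ∈ T, TT_a c p0 p ≤ 2 + 2 * c.ρ := by
  classical
  have hcard : ∀ S ⊆ T, (∀ p ∈ S, ∀ q ∈ S, p.1 = q.1) → S.card ≤ 2 := by
    intro S hS h1
    have h2 : (S.image Prod.snd).card = S.card := by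
      apply Finset.card_image_of_injOn
      intro p hp q hq hpq
      exact Prod.ext (h1 p hp q hq) hpq
    rw [← h2]
    apply card_le_two_of_compat
    intro u hu u' hu'
    obtain ⟨p, hp, rfl⟩ := Finset.mem_image.mp hu
    obtain ⟨q, hq, rfl⟩ := Finset.mem_image.mp hu'
    rcases hT p (hS hp) q (hS hq) with h | h
    · rw [h1 p hp q hq] at h
      exact absurd h c.Γ.irrefl
    · exact h.2
  rw [← Finset.sum_filter_add_sum_filter_not T (fun p => p0.1 = p.1)]
  have e1 : ∑ p ∈ T.filter (fun p => p0.1 = p.1), TT_a c p0 p ≤ 2 := by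
    rw [Finset.sum_congr rfl (fun p hp => TT_a_same c (Finset.mem_filter.mp hp).2)]
    rw [Finset.sum_const, nsmul_eq_mul, mul_one]
    have := hcard (T.filter (fun p => p0.1 = p.1)) (Finset.filter_subset _ _) (by
      intro p hp q hq
      rw [← (Finset.mem_filter.mp hp).2, ← (Finset.mem_filter.mp hq).2])
    exact_mod_cast this
  have e2 : ∑ p ∈ T.filter (fun p => ¬ p0.1 = p.1), TT_a c p0 p ≤ 2 * c.ρ := by
    rw [Finset.sum_congr rfl (fun p hp => TT_a_diff c (Finset.mem_filter.mp hp).2)]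
    rw [Finset.sum_const, nsmul_eq_mul]
    have hadj : ∀ p ∈ T.filter (fun p => ¬ p0.1 = p.1), c.Γ.Adj p0.1 p.1 := by
      intro p hp
      obtain ⟨hp1, hp2⟩ := Finset.mem_filter.mp hp
      rcases hT p0 h0 p hp1 with h | h
      · exact h
      · exact absurd h.1 hp2
    have := hcard (T.filter (fun p => ¬ p0.1 = p.1)) (Finset.filter_subset _ _) (by
      intro p hp q hq
      rcases hT p (Finset.mem_filter.mp hp).1 q (Finset.mem_filter.mp hq).1 with h | h
      · exact absurd (hadj q hq) (fun hq' => c.good.tf _ _ _ (hadj p hp) h hq')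
      · exact h.1)
    exact mul_le_mul_of_nonneg_right (by exact_mod_cast this) (ρ_pos c).le
  linarith

open Classical in
/-- the clique bound for one choice of target neighbours -/
theorem TT_clique (ω : W c) (u : Fin c.N → c.X × Fin 5) (hu : ∀ l, c.Γ.Adj (vv c ω l).1 (u l).1) :
    ∑ ω' ∈ univ.filter (fun ω' : W c => 0 < Bw c ω ω' ∧ ∀ l, vv c ω' l = vv c ω l ∨ vv c ω' l = u l),
      ∏ k, TT_a c (ω k) (ω' k) ≤ (2 + 2 * c.ρ) ^ c.N := by
  set A := univ.filter (fun ω' : W c => 0 < Bw c ω ω' ∧ ∀ l, vv c ω' l = vv c ω l ∨ vv c ω' l = u l) with hA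
  have hself : ω ∈ A := by
    rw [hA, Finset.mem_filter]
    exact ⟨Finset.mem_univ _, by rw [Bw_self]; exact one_pos, fun l => Or.inl rfl⟩
  have hcomp : ∀ ω1 ∈ A, ∀ ω2 ∈ A, ∀ k, cG c.Γ (ω1 k) (ω2 k) := by
    intro ω1 h1 ω2 h2
    rw [hA, Finset.mem_filter] at h1 h2
    apply c.hom ω1 ω2
    · have a1 := (Bw_pos c h1.2.1).1
      have a2 := (Bw_pos c h2.2.1).1
      unfold mm at a1 a2
      rw [← a1, ← a2]
    · intro l
      have b1 : vv c ω1 l = vv c ω l ∨ vv c ω1 l = u l := h1.2.2 l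
      have b2 : vv c ω2 l = vv c ω l ∨ vv c ω2 l = u l := h2.2.2 l
      show cH c.Γ (vv c ω1 l) (vv c ω2 l)
      rcases b1 with b1 | b1 <;> rcases b2 with b2 | b2 <;> rw [b1, b2]
      · exact cH_refl _ _
      · exact Or.inl (hu l)
      · exact Or.inl (hu l).symm
      · exact cH_refl _ _
  set T : Fin c.N → Finset (c.X × Y) := fun k => A.image (fun ω' => ω' k) with hT
  have hsub : A ⊆ Fintype.piFinset T := by
    intro ω' hω'
    rw [Fintype.mem_piFinset]
    intro k
    exact Finset.mem_image_of_mem _ hω'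
  calc ∑ ω' ∈ A, ∏ k, TT_a c (ω k) (ω' k) ≤ ∑ ω' ∈ Fintype.piFinset T, ∏ k, TT_a c (ω k) (ω' k) :=
        Finset.sum_le_sum_of_subset_of_nonneg hsub
          (fun ω' _ _ => Finset.prod_nonneg fun k _ => (TT_a_pos c _ _).le)
    _ = ∏ k, ∑ p ∈ T k, TT_a c (ω k) p := (Finset.prod_univ_sum T (fun k p => TT_a c (ω k) p)).symm
    _ ≤ ∏ _k : Fin c.N, (2 + 2 * c.ρ) := by
        apply Finset.prod_le_prod
        · intro k _
          exact Finset.sum_nonneg fun p _ => (TT_a_pos c _ _).le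
        · intro k _
          apply TT_place
          · exact Finset.mem_image_of_mem (fun ω' : W c => ω' k) hself
          · intro p hp q hq
            obtain ⟨ω1, h1, rfl⟩ := Finset.mem_image.mp hp
            obtain ⟨ω2, h2, rfl⟩ := Finset.mem_image.mp hq
            exact hcomp ω1 h1 ω2 h2 k
    _ = (2 + 2 * c.ρ) ^ c.N := by simp

/-- total weight -/
theorem TT_total (ω : W c) : ∑ ω' : W c, ind (0 < Bw c ω ω') *
    ((∏ k, TT_a c (ω k) (ω' k)) * ∏ l, TT_b c (vv c ω l) (vv c ω' l)) ≤ (2 + 2 * c.ρ) ^ c.N := by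
  classical
  set Nb : Fin c.N → Finset (c.X × Fin 5) :=
    fun l => univ.filter (fun p' : c.X × Fin 5 => c.Γ.Adj (vv c ω l).1 p'.1) with hNb
  set q : ℝ := 1 / (5 * (c.g : ℝ)) with hq
  have hqpos : 0 < q := one_div_pos.mpr (TT_5g c)
  have h1 : ∀ ω' : W c, ind (0 < Bw c ω ω') *
      ((∏ k, TT_a c (ω k) (ω' k)) * ∏ l, TT_b c (vv c ω l) (vv c ω' l)) =
      ∑ u ∈ Fintype.piFinset Nb, q ^ c.N * (ind (0 < Bw c ω ω' ∧ ∀ l, vv c ω' l = vv c ω l ∨ vv c ω' l = u l) *
        ∏ k, TT_a c (ω k) (ω' k)) := by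
    intro ω'
    by_cases hB : 0 < Bw c ω ω'
    · have h2 := (Bw_pos c hB).2
      rw [ind_of hB, one_mul]
      have h3 : ∏ l, TT_b c (vv c ω l) (vv c ω' l) =
          ∑ u ∈ Fintype.piFinset Nb, ∏ l, q * ind (vv c ω' l = vv c ω l ∨ vv c ω' l = u l) := by
        rw [← Finset.prod_univ_sum Nb (fun l u => q * ind (vv c ω' l = vv c ω l ∨ vv c ω' l = u))]
        exact Finset.prod_congr rfl fun l _ => TT_b_avg c (h2 l)
      rw [h3, Finset.mul_sum]
      apply Finset.sum_congr rfl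
      intro u _
      rw [Finset.prod_mul_distrib, Finset.prod_const, Finset.card_univ, Fintype.card_fin]
      have h4 : ∏ l, ind (vv c ω' l = vv c ω l ∨ vv c ω' l = u l) =
          ind (0 < Bw c ω ω' ∧ ∀ l, vv c ω' l = vv c ω l ∨ vv c ω' l = u l) := by
        by_cases hall : ∀ l, vv c ω' l = vv c ω l ∨ vv c ω' l = u l
        · rw [ind_of ⟨hB, hall⟩]
          exact Finset.prod_eq_one fun l _ => ind_of (hall l)
        · rw [ind_of_not (fun h => hall h.2)]
          push Not at hall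
          obtain ⟨l, hl⟩ := hall
          exact Finset.prod_eq_zero (Finset.mem_univ l) (ind_of_not (by push Not; exact hl))
      rw [h4]
      ring
    · rw [ind_of_not hB, zero_mul]
      symm
      apply Finset.sum_eq_zero
      intro u _
      rw [ind_of_not (fun h => hB h.1)]
      ring
  simp only [h1]
  rw [Finset.sum_comm]
  have h5 : ∀ u ∈ Fintype.piFinset Nb, ∑ ω' : W c, q ^ c.N *
      (ind (0 < Bw c ω ω' ∧ ∀ l, vv c ω' l = vv c ω l ∨ vv c ω' l = u l) * ∏ k, TT_a c (ω k) (ω' k)) ≤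
      q ^ c.N * (2 + 2 * c.ρ) ^ c.N := by
    intro u hu
    rw [← Finset.mul_sum]
    apply mul_le_mul_of_nonneg_left _ (pow_nonneg hqpos.le _)
    have h6 := TT_clique c ω u (fun l => by
      have := Fintype.mem_piFinset.mp hu l
      rw [hNb] at this
      exact (Finset.mem_filter.mp this).2)
    rw [Finset.sum_filter] at h6
    refine le_trans (le_of_eq ?_) h6
    apply Finset.sum_congr rfl
    intro ω' _
    by_cases h : 0 < Bw c ω ω' ∧ ∀ l, vv c ω' l = vv c ω l ∨ vv c ω' l = u l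
    · rw [ind_of h, if_pos h, one_mul]
    · rw [ind_of_not h, if_neg h, zero_mul]
  refine (Finset.sum_le_sum h5).trans ?_
  rw [Finset.sum_const, nsmul_eq_mul, Fintype.card_piFinset]
  have h7 : ∀ l, ((Nb l).card : ℝ) = 5 * c.g := by
    intro l
    rw [← TT_nbr c (vv c ω l), hNb]
    rw [Finset.card_filter]
    push_cast
    apply Finset.sum_congr rfl
    intro p' _
    by_cases h : c.Γ.Adj (vv c ω l).1 p'.1
    · rw [if_pos h, ind_of h]
    · rw [if_neg h, ind_of_not h]
  push_cast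
  simp only [h7]
  rw [Finset.prod_const, Finset.card_univ, Fintype.card_fin, ← mul_assoc, ← mul_pow]
  have h8 : 5 * (c.g : ℝ) * q = 1 := by
    rw [hq, one_div, mul_inv_cancel₀ (TT_5g c).ne']
  rw [h8, one_pow, one_mul]

theorem TT : Hc (mu c) (fun z => z.2) (fun z => z.1)
    ≤ c.N * (Real.log 2 + Real.log (1 + c.ρ)) - Real.log c.ρ * ex (mu c) (kd c)
      + Real.log (5 * c.g) * ex (mu c) (kv c) := by
  have hρ := ρ_pos c
  have hC : (0 : ℝ) < (2 + 2 * c.ρ) ^ c.N := by positivity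
  have h := gibbs (mu_prob c) (fun z : O c => z.2) (fun z : O c => z.1)
    (fun z ω' => ind (0 < Bw c z.1 ω') *
      ((∏ k, TT_a c (z.1 k) (ω' k)) * ∏ l, TT_b c (vv c z.1 l) (vv c ω' l))) hC
    (fun z ω' => mul_nonneg (ind_nonneg _) (mul_nonneg (Finset.prod_nonneg fun k _ => (TT_a_pos c _ _).le)
      (Finset.prod_nonneg fun l _ => (TT_b_pos c _ _).le)))
    (fun z z' hz => by
      have hz' : z.1 = z'.1 := hz
      funext ω'
      show ind (0 < Bw c z.1 ω') * _ = ind (0 < Bw c z'.1 ω') * _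
      rw [hz'])
    (fun z => TT_total c z.1)
    (fun z hz => by
      have hB : 0 < Bw c z.1 z.2 := (mu_pos_iff c).mp hz
      show 0 < ind (0 < Bw c z.1 z.2) * _
      rw [ind_of hB, one_mul]
      exact mul_pos (Finset.prod_pos fun k _ => TT_a_pos c _ _) (Finset.prod_pos fun l _ => TT_b_pos c _ _))
  refine h.trans (le_of_eq ?_)
  have e1 : ex (mu c) (fun z : O c => -Real.log (ind (0 < Bw c z.1 z.2) *
      ((∏ k, TT_a c (z.1 k) (z.2 k)) * ∏ l, TT_b c (vv c z.1 l) (vv c z.2 l)))) =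
      ex (mu c) (fun z => (-Real.log c.ρ) * kd c z + Real.log (5 * c.g) * kv c z) := by
    apply ex_congr (mu_nonneg c)
    intro z hz
    have hB := (mu_pos_iff c).mp hz
    rw [ind_of hB, one_mul, Real.log_mul (Finset.prod_pos fun k _ => TT_a_pos c _ _).ne'
      (Finset.prod_pos fun l _ => TT_b_pos c _ _).ne',
      Real.log_prod (fun k _ => (TT_a_pos c _ _).ne'), Real.log_prod (fun l _ => (TT_b_pos c _ _).ne')]
    simp only [TT_log_a, TT_log_b]
    rw [← Finset.mul_sum, ← Finset.mul_sum]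
    unfold kd kv
    ring
  rw [e1, ex_add, ex_smul, ex_smul, Real.log_pow]
  have e2 : Real.log (2 + 2 * c.ρ) = Real.log 2 + Real.log (1 + c.ρ) := by
    rw [← Real.log_mul (by norm_num) (by linarith)]
    congr 1
    ring
  rw [e2]
  ring

end

end Pool.Agent.helper15.FH
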